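import Pool.Agent.E8helper37.RX.Main
import Pool.Agent.H297R2.BakerThm

/-!
# One irrational leaf label: the pattern gives few bad values
-/

set_option autoImplicit false

namespace Pool.Agent.E8helper96.EX

open Finset Module
open Pool.Agent.H301R2.SSE (QB mem_QB Lt Lt_alg Lt_log)
open Pool.Agent.E8helper37.RX

/-- cross ratios -/
theorem cross {K : Subfield ℂ} {a b c d μ τ x : ℂ} (hdet : a * d ≠ b * c) (hμ : μ ≠ 0) (n : Fin 3 → ℕ)
    (hn : Function.Injective n)
    (hd : ∀ j, c * (x + μ * n j) + d ≠ 0)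
    (hM : ∀ j, (a * (x + μ * n j) + b) / (c * (x + μ * n j) + d) ∈ K)
    (hd' : c * (x + μ * τ) + d ≠ 0)
    (hM' : (a * (x + μ * τ) + b) / (c * (x + μ * τ) + d) ∈ K) : τ ∈ K := by
  classical
  by_contra hτ
  have hτn : ∀ j, τ - n j ≠ 0 := fun j h => hτ (by
    rw [sub_eq_zero.1 h]; exact natCast_mem K _)
  have hne : ∀ i j, i ≠ j → ((n i : ℂ) - n j) ≠ 0 := fun i j hij h => hij (hn (by
    have : ((n i : ℕ) : ℂ) = n j := sub_eq_zero.1 h
    exact_mod_cast this))
  have hD : a * d - b * c ≠ 0 := sub_ne_zero.2 hdet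
  have key : ∀ y z : ℂ, c * (x + μ * y) + d ≠ 0 → c * (x + μ * z) + d ≠ 0 →
      (a * (x + μ * y) + b) / (c * (x + μ * y) + d) - (a * (x + μ * z) + b) / (c * (x + μ * z) + d) =
        (a * d - b * c) * μ * (y - z) / ((c * (x + μ * y) + d) * (c * (x + μ * z) + d)) := by
    intro y z hy hz
    rw [div_sub_div _ _ hy hz]
    congr 1
    ring
  set D : Fin 3 → ℂ := fun j => c * (x + μ * n j) + d with hDd
  set E : ℂ := c * (x + μ * τ) + d with hE
  set k : Fin 3 → ℂ := fun j => (a * (x + μ * n j) + b) / D j with hk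
  set k' : ℂ := (a * (x + μ * τ) + b) / E with hk'
  have e02 : k 0 - k 2 = (a * d - b * c) * μ * (n 0 - n 2) / (D 0 * D 2) := key _ _ (hd 0) (hd 2)
  have e12 : k 1 - k 2 = (a * d - b * c) * μ * (n 1 - n 2) / (D 1 * D 2) := key _ _ (hd 1) (hd 2)
  have e0 : k' - k 0 = (a * d - b * c) * μ * (τ - n 0) / (E * D 0) := key _ _ hd' (hd 0)
  have e1 : k' - k 1 = (a * d - b * c) * μ * (τ - n 1) / (E * D 1) := key _ _ hd' (hd 1)
  have hD0 : D 0 ≠ 0 := hd 0
  have hD1 : D 1 ≠ 0 := hd 1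
  have hD2 : D 2 ≠ 0 := hd 2
  -- the cross ratio
  have h1 : (k 0 - k 2) * (k' - k 1) / ((k 1 - k 2) * (k' - k 0)) =
      ((n 0 - n 2) * (τ - n 1)) / ((n 1 - n 2) * (τ - n 0)) := by
    rw [e02, e12, e0, e1]
    have := hne 0 2 (by decide)
    have := hne 1 2 (by decide)
    have := hτn 0
    have := hτn 1
    field_simp
  have h2 : (k 0 - k 2) * (k' - k 1) / ((k 1 - k 2) * (k' - k 0)) ∈ K :=
    K.div_mem (K.mul_mem (K.sub_mem (hM 0) (hM 2)) (K.sub_mem hM' (hM 1)))
      (K.mul_mem (K.sub_mem (hM 1) (hM 2)) (K.sub_mem hM' (hM 0)))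
  rw [h1] at h2
  have h3 : (((n 0 : ℂ) - n 2) * (τ - n 1)) / ((n 1 - n 2) * (τ - n 0)) * ((n 1 - n 2) / (n 0 - n 2)) =
      (τ - n 1) / (τ - n 0) := by
    have := hne 0 2 (by decide)
    have := hne 1 2 (by decide)
    have := hτn 0
    field_simp
  have hc : ∀ j, (n j : ℂ) ∈ K := fun j => natCast_mem K _
  have h4 : (τ - n 1) / (τ - n 0) ∈ K := by
    rw [← h3]
    exact K.mul_mem h2 (K.div_mem (K.sub_mem (hc 1) (hc 2)) (K.sub_mem (hc 0) (hc 2)))
  have h5 : (1 - (τ - n 1) / (τ - n 0)) / ((n 1 : ℂ) - n 0) = (τ - n 0)⁻¹ := by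
    have := hne 1 0 (by decide)
    have := hτn 0
    field_simp
    ring
  have h6 : (τ - n 0)⁻¹ ∈ K := by
    rw [← h5]
    exact K.div_mem (K.sub_mem K.one_mem h4) (K.sub_mem (hc 1) (hc 0))
  have h7 : τ - n 0 ∈ K := by simpa using K.inv_mem h6
  apply hτ
  simpa using K.add_mem h7 (hc 0)

/-- Gelfond-Schneider, from Baker's theorem -/
theorem gs {l r : ℂ} (hl : l ≠ 0) (h1 : IsAlgebraic ℚ (Complex.exp l)) (hr : IsAlgebraic ℚ r)
    (h2 : IsAlgebraic ℚ (Complex.exp (r * l))) : ∃ q : ℚ, r = q := by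
  by_contra hcon
  push Not at hcon
  have hli : LinearIndependent ℚ ![l, r * l] := by
    rw [LinearIndependent.pair_iff]
    intro s t hst
    have h3 : ((s : ℂ) + t * r) * l = 0 := by
      rw [← hst, Rat.smul_def, Rat.smul_def]; ring
    have h4 := (mul_eq_zero.1 h3).resolve_right hl
    by_cases ht : t = 0
    · subst ht
      refine ⟨?_, rfl⟩
      simpa using h4
    · exfalso
      apply hcon (-s / t)
      have : (t : ℂ) ≠ 0 := by exact_mod_cast ht
      push_cast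
      field_simp
      linear_combination h4
  have h3 := Pool.Agent.H297R2.baker ![l, r * l] (by
    intro i; fin_cases i
    · exact h1
    · exact h2) hli ![r, -1] (by
    intro i; fin_cases i
    · exact hr
    · exact (isAlgebraic_one.neg)) (by
    rw [Fin.sum_univ_two]
    simp) 1
  simp at h3

theorem irr_ne {θ : ℝ} {K : Subfield ℂ} (hθ : (θ : ℂ) ∉ K) : ((θ * (θ - 1) : ℝ) : ℂ) ≠ 0 := by
  intro h
  have h1 : θ * (θ - 1) = 0 := by exact_mod_cast h
  rcases mul_eq_zero.1 h1 with h2 | h2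
  · apply hθ; rw [h2]; simp
  · apply hθ; rw [sub_eq_zero.1 h2]; simp

theorem ptC_update {θ : ℝ} {K h : ℕ} (i : Fin K → Fin (h + 1)) (k : Fin K) (x : Fin (h + 1)) :
    ((pt θ K h (Function.update i k x) : ℝ) : ℂ) =
      ((pt θ K h (Function.update i k 0) : ℝ) : ℂ) +
        ((θ * (θ - 1) : ℝ) : ℂ) * ((θ : ℂ) ^ (k : ℕ) * ((x : ℕ) : ℂ)) := by
  rw [pt_update]
  push_cast
  ring

/-- at most three values on a line if it is not full, at most one line is full -/
theorem base_field {K : Subfield ℂ} {θ : ℝ} (hθ : (θ : ℂ) ∉ K) {a b c d : ℂ}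
    (hdet : a * d ≠ b * c) {k h : ℕ} (hk : 2 ≤ k) :
    ∑ i : Fin k → Fin (h + 1), ind ((a * ((pt θ k h i : ℝ) : ℂ) + b) /
      (c * ((pt θ k h i : ℝ) : ℂ) + d) ∈ K) ≤
      (4 / ((h : ℝ) + 1)) * ((h : ℝ) + 1) ^ k := by
  classical
  have hμ := irr_ne hθ
  set μ : ℂ := ((θ * (θ - 1) : ℝ) : ℂ) with hμd
  obtain ⟨k0, hk0⟩ : ∃ k0 : Fin k, (k0 : ℕ) = 0 := ⟨⟨0, by omega⟩, rfl⟩
  obtain ⟨k1, hk1⟩ : ∃ k1 : Fin k, (k1 : ℕ) = 1 := ⟨⟨1, by omega⟩, rfl⟩
  have hk01 : k0 ≠ k1 := fun h => by rw [h] at hk0; omega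
  let bad : (Fin k → Fin (h + 1)) → Prop := fun i => (a * ((pt θ k h i : ℝ) : ℂ) + b) /
      (c * ((pt θ k h i : ℝ) : ℂ) + d) ∈ K
  let full : (Fin k → Fin (h + 1)) → Prop := fun i => ∃ I : Finset ℕ, 4 ≤ I.card ∧
    ∀ n ∈ I, ∃ hn : n < h + 1, bad (Function.update i k0 ⟨n, hn⟩)
  -- a set of four elements contains three points which are not poles
  have hpole : ∀ (x : ℂ) (I : Finset ℕ), 4 ≤ I.card → ∃ n : Fin 3 → ℕ, Function.Injective n ∧
      (∀ j, n j ∈ I) ∧ ∀ j, c * (x + μ * n j) + d ≠ 0 := by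
    intro x I hI
    have h1 : (I.filter fun n : ℕ => c * (x + μ * n) + d = 0).card ≤ 1 := by
      rw [Finset.card_le_one]
      intro m hm n hn
      rw [Finset.mem_filter] at hm hn
      have h2 : c * μ * ((m : ℂ) - n) = 0 := by linear_combination hm.2 - hn.2
      rcases mul_eq_zero.1 h2 with h3 | h3
      · rcases mul_eq_zero.1 h3 with h4 | h4
        · exfalso
          apply hdet
          have h5 := hm.2
          rw [h4, zero_mul, zero_add] at h5
          rw [h4, h5, mul_zero, mul_zero]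
        · exact absurd h4 hμ
      · have : (m : ℂ) = n := sub_eq_zero.1 h3
        exact_mod_cast this
    have h2 : 3 ≤ (I.filter fun n : ℕ => ¬ c * (x + μ * n) + d = 0).card := by
      have := Finset.card_filter_add_card_filter_not (s := I) (fun n : ℕ => c * (x + μ * n) + d = 0)
      omega
    obtain ⟨J, hJ, hJ3⟩ := Finset.exists_subset_card_eq h2
    let e := J.orderEmbOfFin hJ3
    refine ⟨e, e.injective, fun j => ?_, fun j => ?_⟩
    · exact (Finset.mem_filter.1 (hJ (J.orderEmbOfFin_mem hJ3 j))).1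
    · exact (Finset.mem_filter.1 (hJ (J.orderEmbOfFin_mem hJ3 j))).2
  have hsplit : ∀ i, ind (bad i) ≤ ind (full i) + ind (¬ full i ∧ bad i) := by
    intro i
    by_cases h1 : full i
    · rw [ind_pos h1]
      have := ind_le_one (bad i)
      have := ind_nonneg (¬ full i ∧ bad i)
      linarith
    · rw [ind_neg h1, zero_add]
      exact ind_mono fun h => ⟨h1, h⟩
  have hB1 : ∑ i : Fin k → Fin (h + 1), ind (full i) ≤
      1 / ((h : ℝ) + 1) * ((h : ℝ) + 1) ^ k := by
    apply count_coord k1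
    intro i
    apply sum_ind_le
    intro I hI
    apply card_le_one_of
    intro m hm n hn
    obtain ⟨hm1, Im, hIm, hm2⟩ := hI m hm
    obtain ⟨hn1, In, hIn, hn2⟩ := hI n hn
    by_contra hmn
    set i0 := Function.update i k0 0 with hi0
    set x : ℂ := ((pt θ k h (Function.update i0 k1 0) : ℝ) : ℂ) + μ * (θ * m) with hx
    have hval : ∀ (p q : ℕ) (hp : p < h + 1) (hq : q < h + 1),
        ((pt θ k h (Function.update (Function.update i k1 ⟨p, hp⟩) k0 ⟨q, hq⟩) : ℝ) : ℂ) =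
          ((pt θ k h (Function.update i0 k1 0) : ℝ) : ℂ) + μ * (θ * p) + μ * q := by
      intro p q hp hq
      rw [ptC_update, Function.update_comm hk01.symm, ← hi0, ptC_update, hk1, hk0, ← hμd]
      simp
    obtain ⟨em, hem1, hem2, hem3⟩ := hpole x Im hIm
    obtain ⟨en, hen1, hen2, hen3⟩ := hpole
      (((pt θ k h (Function.update i0 k1 0) : ℝ) : ℂ) + μ * (θ * n)) In hIn
    have hτ : (((pt θ k h (Function.update i0 k1 0) : ℝ) : ℂ) + μ * (θ * n)) + μ * en 0 =
        x + μ * (θ * ((n : ℂ) - m) + en 0) := by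
      rw [hx]; ring
    have h1 := cross (K := K) hdet hμ em hem1 hem3 (fun j => by
      obtain ⟨hj, hj2⟩ := hm2 (em j) (hem2 j)
      simp only [bad] at hj2
      rw [hval] at hj2
      exact hj2) (τ := θ * ((n : ℂ) - m) + en 0) (by rw [← hτ]; exact hen3 0) (by
      rw [← hτ]
      obtain ⟨hj, hj2⟩ := hn2 (en 0) (hen2 0)
      simp only [bad] at hj2
      rw [hval] at hj2
      exact hj2)
    have h2 : (θ : ℂ) * ((n : ℂ) - m) ∈ K := by
      have := K.sub_mem h1 (natCast_mem K (en 0))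
      simpa using this
    have h3 : ((n : ℂ) - m) ≠ 0 := by
      intro h
      apply hmn
      have : (n : ℂ) = (m : ℂ) := by linear_combination h
      exact_mod_cast this.symm
    apply hθ
    have h4 : (θ : ℂ) = (θ * ((n : ℂ) - m)) / ((n : ℂ) - m) := by field_simp
    rw [h4]
    exact K.div_mem h2 (K.sub_mem (natCast_mem K _) (natCast_mem K _))
  have hB2 : ∑ i : Fin k → Fin (h + 1), ind (¬ full i ∧ bad i) ≤
      3 / ((h : ℝ) + 1) * ((h : ℝ) + 1) ^ k := by
    apply count_coord k0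
    intro i
    apply sum_ind_le
    intro I hI
    by_contra hcon
    push Not at hcon
    have h4 : 4 ≤ I.card := by
      have : (3 : ℝ) < I.card := hcon
      have : 3 < I.card := by exact_mod_cast this
      omega
    obtain ⟨n, hn⟩ : I.Nonempty := Finset.card_pos.1 (by omega)
    obtain ⟨hn1, hn2, -⟩ := hI n hn
    apply hn2
    refine ⟨I, h4, fun m hm => ?_⟩
    obtain ⟨hm1, -, hm3⟩ := hI m hm
    refine ⟨hm1, ?_⟩
    rw [Function.update_idem]
    exact hm3
  calc _ ≤ ∑ i : Fin k → Fin (h + 1), (ind (full i) + ind (¬ full i ∧ bad i)) :=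
        Finset.sum_le_sum fun i _ => hsplit i
    _ ≤ _ := by
      rw [Finset.sum_add_distrib]
      refine (add_le_add hB1 hB2).trans (le_of_eq ?_)
      ring

end Pool.Agent.E8helper96.EX
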