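import Pool.Agent.E8helper96.EX.Fin
import Pool.Agent.E8helper37.RY.Card

/-!
# The degree of the values

If one of the labels is irrational, then almost all values generate the field generated by the labels or are
transcendental.
-/

set_option autoImplicit false

namespace Pool.Agent.E8helper96.EX

open Module
open Pool.Agent.E8helper37.RX Pool.Agent.E8helper37.RY

section

variable {σ : Type} [Fintype σ] {v : σ → ℝ}

/-- If one of the labels is irrational, then almost all values are transcendental or generate
the field generated by the labels. -/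
theorem partG (hv : ∀ s, 0 < v s) (hs : ∃ s, Irrational (v s)) {ε : ℝ} (hε : 0 < ε) :
    ∃ n₀ : ℕ, ∀ n ≥ n₀,
      (Nat.card {t : Expr σ (Fin 3) // t.leaves = n ∧ IsAlgebraic ℚ (t.value arith v) ∧
        IntermediateField.adjoin ℚ {t.value arith v} ≠
          IntermediateField.adjoin ℚ (Set.range v)} : ℝ) ≤
        ε * Nat.card {t : Expr σ (Fin 3) // t.leaves = n} := by
  classical
  by_cases htr : ∃ s, Transcendental ℚ (v s)
  · obtain ⟨n₀, hn₀⟩ := almost_tr hv htr hε
    exact ⟨n₀, fun n hn => (card_mono n fun t h => h.1).trans (hn₀ n hn)⟩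
  · have halg : ∀ s, IsAlgebraic ℚ (v s) := by
      intro s
      by_contra h
      exact htr ⟨s, h⟩
    have hfd : FiniteDimensional ℚ (IntermediateField.adjoin ℚ (Set.range v)) := by
      apply IntermediateField.finiteDimensional_adjoin
      rintro x ⟨s, rfl⟩
      exact (halg s).isIntegral
    set F := IntermediateField.adjoin ℚ (Set.range v) with hF
    have hmem : ∀ s, v s ∈ F := fun s => IntermediateField.subset_adjoin _ _ ⟨s, rfl⟩
    obtain ⟨D, hD⟩ : ∃ D, D = finrank ℚ F := ⟨_, rfl⟩
    have hD2 : 2 ≤ D := by
      have hpos : 0 < finrank ℚ F := finrank_pos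
      by_contra hcon
      have h1 : finrank ℚ F = 1 := by omega
      have h2 : F = ⊥ := IntermediateField.finrank_eq_one_iff.1 h1
      obtain ⟨s, hs⟩ := hs
      have h3 := hmem s
      rw [h2, IntermediateField.mem_bot] at h3
      obtain ⟨q, hq⟩ := h3
      exact hs ⟨q, hq⟩
    have hfew : Few v (D - 1) := by
      refine few_of hv (by omega) fun L hL hLfd => ?_
      have hle : F ≤ L := by
        rw [hF, IntermediateField.adjoin_le_iff]
        rintro x ⟨s, rfl⟩
        exact hL s
      have h1 : finrank ℚ F ≤ finrank ℚ L := by
        have := Submodule.finrank_mono (R := ℚ) (s := F.toSubmodule) (t := L.toSubmodule) hle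
        exact this
      omega
    obtain ⟨n₀, hn₀⟩ := hfew ε hε
    refine ⟨n₀, fun n hn => (card_mono n fun t h => ?_).trans (hn₀ n hn).2⟩
    have hx : t.value arith v ∈ F := value_mem arith_ari F hmem t
    have hle : IntermediateField.adjoin ℚ {t.value arith v} ≤ F := by
      rw [IntermediateField.adjoin_simple_le_iff]
      exact hx
    have hxint : IsIntegral ℚ (t.value arith v) := h.1.isIntegral
    have hlt : finrank ℚ (IntermediateField.adjoin ℚ {t.value arith v}) < D := by
      by_contra hcon
      push Not at hcon
      apply h.2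
      apply IntermediateField.eq_of_le_of_finrank_le hle
      omega
    rw [IntermediateField.adjoin.finrank hxint] at hlt
    exact ⟨minpoly ℚ (t.value arith v), minpoly.ne_zero hxint, by omega, minpoly.aeval ℚ _⟩

end

end Pool.Agent.E8helper96.EX
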