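import Pool.Agent.E8helper96.EX.Base

/-!
# Exponentials: algebraic labels, one of them irrational
-/

set_option autoImplicit false

namespace Pool.Agent.E8helper96.EX

open Finset Module
open Pool.Agent.H301R2.SSE (QB mem_QB Lt Lt_alg Lt_log)
open Pool.Agent.E8helper37.RX

/-- the rational numbers -/
noncomputable def Rat0 : Subfield ℂ := (algebraMap ℚ ℂ).fieldRange

theorem mem_Rat0 {z : ℂ} : z ∈ Rat0 ↔ ∃ q : ℚ, z = q := by
  unfold Rat0
  rw [RingHom.mem_fieldRange]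
  constructor
  · rintro ⟨q, hq⟩
    exact ⟨q, by rw [← hq]; simp⟩
  · rintro ⟨q, hq⟩
    exact ⟨q, by rw [hq]; simp⟩

theorem not_mem_Rat0 {θ : ℝ} (hθ : Irrational θ) : (θ : ℂ) ∉ Rat0 := by
  rw [mem_Rat0]
  rintro ⟨q, hq⟩
  apply hθ
  refine ⟨q, ?_⟩
  have : (θ : ℂ) = ((q : ℝ) : ℂ) := by rw [hq]; simp
  exact (by exact_mod_cast this.symm)

theorem algC {x : ℝ} (h : IsAlgebraic ℚ x) : IsAlgebraic ℚ (x : ℂ) := h.algebraMap (A := ℂ)

theorem pt_alg {θ : ℝ} (hθ : IsAlgebraic ℚ θ) {k h : ℕ} (i : Fin k → Fin (h + 1)) :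
    IsAlgebraic ℚ (pt θ k h i) := by
  have hb : ∀ m, IsAlgebraic ℚ (base θ h m) := by
    intro m
    induction m with
    | zero => exact hθ
    | succ m ih => exact (hθ.mul ih).add ((isAlgebraic_natCast h).mul hθ)
  unfold pt
  refine (hb k).add ((hθ.mul (hθ.sub isAlgebraic_one)).mul ?_)
  exact Finset.sum_induction _ (IsAlgebraic ℚ) (fun _ _ h1 h2 => h1.add h2) isAlgebraic_zero
    fun j _ => (isAlgebraic_natCast _).mul (hθ.pow _)

theorem mob_alg {a b c d x : ℂ} (ha : IsAlgebraic ℚ a) (hb : IsAlgebraic ℚ b)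
    (hc : IsAlgebraic ℚ c) (hd : IsAlgebraic ℚ d) (hx : IsAlgebraic ℚ x) :
    IsAlgebraic ℚ ((a * x + b) / (c * x + d)) := by
  rw [div_eq_mul_inv]
  exact ((ha.mul hx).add hb).mul ((hc.mul hx).add hd).inv

/-- (C) for algebraic labels -/
theorem base_pow {θ : ℝ} (hθ : Irrational θ) (hθa : IsAlgebraic ℚ θ) {a b c d β l : ℂ}
    (ha : IsAlgebraic ℚ a) (hb : IsAlgebraic ℚ b) (hc : IsAlgebraic ℚ c) (hd : IsAlgebraic ℚ d)
    (hdet : a * d ≠ b * c) (hl : l ≠ 0) {k h : ℕ} (hk : 2 ≤ k) :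
    ∑ i : Fin k → Fin (h + 1), ind (IsAlgebraic ℚ (Complex.exp (β + l *
      ((a * ((pt θ k h i : ℝ) : ℂ) + b) / (c * ((pt θ k h i : ℝ) : ℂ) + d))))) ≤
      (4 / ((h : ℝ) + 1)) * ((h : ℝ) + 1) ^ k := by
  classical
  have hθ0 := not_mem_Rat0 hθ
  set M : (Fin k → Fin (h + 1)) → ℂ := fun i => (a * ((pt θ k h i : ℝ) : ℂ) + b) /
    (c * ((pt θ k h i : ℝ) : ℂ) + d) with hM
  have hMa : ∀ i, IsAlgebraic ℚ (M i) := fun i => mob_alg ha hb hc hd (algC (pt_alg hθa i))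
  let bad : (Fin k → Fin (h + 1)) → Prop := fun i => IsAlgebraic ℚ (Complex.exp (β + l * M i))
  have hpos : (0 : ℝ) ≤ (4 / ((h : ℝ) + 1)) * ((h : ℝ) + 1) ^ k := by positivity
  by_cases h0 : ∃ i, bad i
  swap
  · push Not at h0
    rw [Finset.sum_congr rfl fun i _ => ind_neg (h0 i), Finset.sum_const_zero]
    exact hpos
  obtain ⟨i₀, hi₀⟩ := h0
  -- differences
  have hdiff : ∀ i, bad i → IsAlgebraic ℚ (Complex.exp (l * (M i - M i₀))) := by
    intro i hi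
    have h1 : l * (M i - M i₀) = (β + l * M i) - (β + l * M i₀) := by ring
    rw [h1, Complex.exp_sub, div_eq_mul_inv]
    exact IsAlgebraic.mul hi (IsAlgebraic.inv hi₀)
  by_cases h1 : ∃ i, bad i ∧ M i ≠ M i₀
  · obtain ⟨i₁, hi₁, hne⟩ := h1
    set e : ℂ := M i₁ - M i₀ with he
    have he0 : e ≠ 0 := sub_ne_zero.2 hne
    have hea : IsAlgebraic ℚ e := (hMa i₁).sub (hMa i₀)
    have hq : ∀ i, bad i → (M i - M i₀) / e ∈ Rat0 := by
      intro i hi
      rw [mem_Rat0]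
      refine gs (l := l * e) (mul_ne_zero hl he0) (hdiff i₁ hi₁) ?_ ?_
      · rw [div_eq_mul_inv]
        exact ((hMa i).sub (hMa i₀)).mul hea.inv
      · convert hdiff i hi using 2
        field_simp
    have hpt : ∀ i, bad i → (((a - M i₀ * c) / e) * ((pt θ k h i : ℝ) : ℂ) + (b - M i₀ * d) / e) /
        (c * ((pt θ k h i : ℝ) : ℂ) + d) ∈ Rat0 := by
      intro i hi
      by_cases hz : c * ((pt θ k h i : ℝ) : ℂ) + d = 0
      · rw [hz, div_zero]; exact Rat0.zero_mem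
      · convert hq i hi using 1
        rw [hM]
        simp only
        field_simp
        ring
    refine le_trans (Finset.sum_le_sum fun i _ => ind_mono fun hi => hpt i hi)
      (base_field hθ0 (a := (a - M i₀ * c) / e) (b := (b - M i₀ * d) / e) ?_ hk)
    intro h2
    apply hdet
    have h3 : (a - M i₀ * c) * d = (b - M i₀ * d) * c := by
      have h4 : ((a - M i₀ * c) / e * d) * e = ((b - M i₀ * d) / e * c) * e := by rw [h2]
      have h5 : (a - M i₀ * c) / e * d * e = (a - M i₀ * c) * d := by field_simp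
      have h6 : (b - M i₀ * d) / e * c * e = (b - M i₀ * d) * c := by field_simp
      rw [h5, h6] at h4
      exact h4
    linear_combination h3
  · push Not at h1
    have hpt : ∀ i, bad i → ((a - M i₀ * c) * ((pt θ k h i : ℝ) : ℂ) + (b - M i₀ * d)) /
        (c * ((pt θ k h i : ℝ) : ℂ) + d) ∈ Rat0 := by
      intro i hi
      by_cases hz : c * ((pt θ k h i : ℝ) : ℂ) + d = 0
      · rw [hz, div_zero]; exact Rat0.zero_mem
      · have h2 : ((a - M i₀ * c) * ((pt θ k h i : ℝ) : ℂ) + (b - M i₀ * d)) /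
            (c * ((pt θ k h i : ℝ) : ℂ) + d) = M i - M i₀ := by
          rw [hM]
          simp only
          field_simp
          ring
        rw [h2, h1 i hi, sub_self]
        exact Rat0.zero_mem
    refine le_trans (Finset.sum_le_sum fun i _ => ind_mono fun hi => hpt i hi)
      (base_field hθ0 (a := a - M i₀ * c) (b := b - M i₀ * d) ?_ hk)
    intro h2
    apply hdet
    linear_combination h2

/-- (D) for an algebraic irrational label -/
theorem base_exp' {θ : ℝ} (hθ : Irrational θ) (hθa : IsAlgebraic ℚ θ) {κ l : ℂ} (hκ : κ ≠ 0)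
    (hl : l ≠ 0) (V : Submodule QB ℂ)
    [FiniteDimensional QB V] {N K h : ℕ} (hV : finrank QB V ≤ N) (hK : 2 ≤ K) :
    ∑ i : Fin K → Fin (h + 1), ind (κ * Complex.exp (l * ((pt θ K h i : ℝ) : ℂ)) ∈ Lt ⊔ V) ≤
      ((N + 2 * Nat.sqrt h + 2 : ℝ) / ((h : ℝ) + 1)) * ((h : ℝ) + 1) ^ K := by
  have hμ := irr_ne (not_mem_Rat0 hθ)
  obtain ⟨k, hk⟩ : ∃ k : Fin K, Transcendental ℚ
      (Complex.exp (l * ((θ * (θ - 1) : ℝ) : ℂ) * (θ : ℂ) ^ (k : ℕ))) := by
    by_cases h0 : IsAlgebraic ℚ (Complex.exp (l * ((θ * (θ - 1) : ℝ) : ℂ)))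
    · refine ⟨⟨1, by omega⟩, fun h => ?_⟩
      rw [pow_one, mul_comm _ (θ : ℂ)] at h
      obtain ⟨q, hq⟩ := gs (mul_ne_zero hl hμ) h0 (algC hθa) h
      exact not_mem_Rat0 hθ (mem_Rat0.2 ⟨q, hq⟩)
    · refine ⟨⟨0, by omega⟩, fun h => h0 ?_⟩
      simpa using h
  apply count_coord k
  intro i
  apply sum_ind_le
  intro I hI
  have h1 := geom_le (h := h) hk (κ := κ * Complex.exp (l * ((pt θ K h (Function.update i k 0) : ℝ) : ℂ)))
    (mul_ne_zero hκ (Complex.exp_ne_zero _)) V I (by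
    intro n hn
    obtain ⟨hn1, hn2⟩ := hI n hn
    refine ⟨hn1, ?_⟩
    convert hn2 using 1
    rw [pt_update θ i k ⟨n, hn1⟩, mul_assoc, ← Complex.exp_nat_mul, ← Complex.exp_add]
    congr 2
    push_cast
    ring)
  have h2 : (I.card : ℝ) ≤ finrank QB V + 2 * Nat.sqrt h + 2 := by exact_mod_cast h1
  have h3 : (finrank QB V : ℝ) ≤ N := by exact_mod_cast hV
  linarith

/-- (B) for a label different from 0 and 1 -/
theorem base_log' {θ : ℝ} (hμ : ((θ * (θ - 1) : ℝ) : ℂ) ≠ 0) {a b c d : ℂ} (hdet : a * d ≠ b * c)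
    {K h : ℕ} (hK : 1 ≤ K) :
    ∑ i : Fin K → Fin (h + 1), ind (∃ α : ℂ, IsAlgebraic ℚ α ∧ (a * ((pt θ K h i : ℝ) : ℂ) + b) /
      (c * ((pt θ K h i : ℝ) : ℂ) + d) = Complex.exp α) ≤
      (3 / ((h : ℝ) + 1)) * ((h : ℝ) + 1) ^ K := by
  obtain ⟨k0, hk0⟩ : ∃ k0 : Fin K, (k0 : ℕ) = 0 := ⟨⟨0, by omega⟩, rfl⟩
  apply count_coord k0
  intro i
  apply sum_ind_le
  intro I hI
  have h1 := exp_le (x := ((pt θ K h (Function.update i k0 0) : ℝ) : ℂ)) hdet hμ I (by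
    intro n hn
    obtain ⟨hn1, α, hα, hn2⟩ := hI n hn
    refine ⟨α, hα, ?_⟩
    rw [← hn2, pt_update θ i k0 ⟨n, hn1⟩, hk0]
    push_cast
    simp only [pow_zero, one_mul])
  exact_mod_cast h1

end Pool.Agent.E8helper96.EX
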