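import Pool.Agent.E8helper96.EX.Main

/-!
# One irrational leaf label: cardinalities
-/

set_option autoImplicit false

namespace Pool.Agent.E8helper96.EX

open Pool.Agent.E8helper37.RX
open Pool.Agent.H301R2.SSE (QB mem_QB Lt Lt_alg Lt_log)

theorem finite_leaves (σ ο : Type) [Fintype σ] [Fintype ο] (n : ℕ) :
    Finite {t : Expr σ ο // t.leaves = n} := by
  classical
  rcases n with _ | n
  · refine Finite.of_injective (β := Empty) (fun t => ?_) (fun t => ?_)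
    · have h1 := t.2
      rw [t.1.leaves_eq] at h1
      omega
    · have h1 := t.2
      rw [t.1.leaves_eq] at h1
      omega
  · exact Finite.of_injective (fun t => (⟨t.1, (mem_ex t.1 n).2 (by
      have h1 := t.2
      rw [t.1.leaves_eq] at h1
      omega)⟩ : {t // t ∈ ex σ ο n})) fun a b h => Subtype.ext (congrArg (fun z => z.1) h)

/-- the union bound -/
theorem card_or {σ ο : Type} [Fintype σ] [Fintype ο] (n : ℕ) (P Q : Expr σ ο → Prop) :
    (Nat.card {t : Expr σ ο // t.leaves = n ∧ (P t ∨ Q t)} : ℝ) ≤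
      Nat.card {t : Expr σ ο // t.leaves = n ∧ P t} +
        Nat.card {t : Expr σ ο // t.leaves = n ∧ Q t} := by
  classical
  have hfin := finite_leaves σ ο n
  have hf : ∀ R : Expr σ ο → Prop, Finite {t : Expr σ ο // t.leaves = n ∧ R t} := fun R =>
    Finite.of_injective (fun t => (⟨t.1, t.2.1⟩ : {t : Expr σ ο // t.leaves = n}))
      fun a b h => Subtype.ext (congrArg (fun z => z.1) h)
  have := hf P
  have := hf Q
  rw [← Nat.cast_add, ← Nat.card_sum, Nat.cast_le]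
  refine Nat.card_le_card_of_injective (fun t => if h : P t.1 then Sum.inl ⟨t.1, t.2.1, h⟩ else
    Sum.inr ⟨t.1, t.2.1, t.2.2.resolve_left h⟩) fun a b h => ?_
  simp only at h
  by_cases ha : P a.1 <;> by_cases hb : P b.1
  · rw [dif_pos ha, dif_pos hb] at h
    exact Subtype.ext (congrArg (fun z => z.1) (Sum.inl_injective h))
  · rw [dif_pos ha, dif_neg hb] at h
    exact absurd h (by simp)
  · rw [dif_neg ha, dif_pos hb] at h
    exact absurd h (by simp)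
  · rw [dif_neg ha, dif_neg hb] at h
    exact Subtype.ext (congrArg (fun z => z.1) (Sum.inr_injective h))

theorem card_mono {σ ο : Type} [Fintype σ] [Fintype ο] (n : ℕ) {P Q : Expr σ ο → Prop}
    (h : ∀ t, P t → Q t) : (Nat.card {t : Expr σ ο // t.leaves = n ∧ P t} : ℝ) ≤
      Nat.card {t : Expr σ ο // t.leaves = n ∧ Q t} := by
  have hfin := finite_leaves σ ο n
  have hf : ∀ R : Expr σ ο → Prop, Finite {t : Expr σ ο // t.leaves = n ∧ R t} := fun R =>
    Finite.of_injective (fun t => (⟨t.1, t.2.1⟩ : {t : Expr σ ο // t.leaves = n}))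
      fun a b h => Subtype.ext (congrArg (fun z => z.1) h)
  have := hf Q
  rw [Nat.cast_le]
  exact Nat.card_le_card_of_injective (fun t => (⟨t.1, t.2.1, h t.1 t.2.2⟩ :
    {t : Expr σ ο // t.leaves = n ∧ Q t}))
    fun a b h => Subtype.ext (congrArg (fun z => z.1) h)

section

variable {σ : Type} [Fintype σ] {v : σ → ℝ} (hv : ∀ s, 0 < v s)
include hv

theorem partF {ο : Type} [Fintype ο] {f : ο → ℝ → ℝ → ℝ} (hf : Ari f) {p q : ο}
    (hp : f p = fun x y => x + y) (hq : f q = fun x y => x * y) (hpq : p ≠ q)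
    {ε : ℝ} (hε : 0 < ε) : ∃ n₀ : ℕ, ∀ n ≥ n₀, ∀ K : Subfield ℂ,
      (∃ s, ((v s : ℝ) : ℂ) ∉ K) → ∀ a b c d : ℂ, a * d ≠ b * c →
      (Nat.card {t : Expr σ ο // t.leaves = n ∧ (a * ((t.value f v : ℝ) : ℂ) + b) /
        (c * ((t.value f v : ℝ) : ℂ) + d) ∈ K} : ℝ) ≤
        ε * Nat.card {t : Expr σ ο // t.leaves = n} := by
  classical
  obtain ⟨n₀, hn₀⟩ := main_field hf hv hp hq hpq hε
  refine ⟨n₀ + 1, fun n hn K hK a b c d hdet => ?_⟩
  obtain ⟨m, rfl⟩ : ∃ m, n = m + 1 := ⟨n - 1, by omega⟩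
  rw [card_eq m (fun t => (a * ((t.value f v : ℝ) : ℂ) + b) /
        (c * ((t.value f v : ℝ) : ℂ) + d) ∈ K), card_all]
  exact hn₀ m (by omega) K hK a b c d hdet

variable (hs : ∃ s, Irrational (v s))
include hs

theorem partL {ο : Type} [Fintype ο] {f : ο → ℝ → ℝ → ℝ} (hf : Ari f) {p q : ο}
    (hp : f p = fun x y => x + y) (hq : f q = fun x y => x * y) (hpq : p ≠ q)
    {ε : ℝ} (hε : 0 < ε) : ∃ n₀ : ℕ, ∀ n ≥ n₀, ∀ a b c d : ℂ, a * d ≠ b * c →
      (Nat.card {t : Expr σ ο // t.leaves = n ∧ ∃ α : ℂ, IsAlgebraic ℚ α ∧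
        (a * ((t.value f v : ℝ) : ℂ) + b) / (c * ((t.value f v : ℝ) : ℂ) + d) =
          Complex.exp α} : ℝ) ≤
        ε * Nat.card {t : Expr σ ο // t.leaves = n} := by
  classical
  obtain ⟨s, hs⟩ := hs
  obtain ⟨n₀, hn₀⟩ := main_log' hf hv hp hq hpq (s := s) hs.ne_one hε
  refine ⟨n₀ + 1, fun n hn a b c d hdet => ?_⟩
  obtain ⟨m, rfl⟩ : ∃ m, n = m + 1 := ⟨n - 1, by omega⟩
  rw [card_eq m (fun t => ∃ α : ℂ, IsAlgebraic ℚ α ∧
        (a * ((t.value f v : ℝ) : ℂ) + b) / (c * ((t.value f v : ℝ) : ℂ) + d) =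
          Complex.exp α), card_all]
  exact hn₀ m (by omega) a b c d hdet

theorem partP {ο : Type} [Fintype ο] {f : ο → ℝ → ℝ → ℝ} (hf : Ari f) {p q : ο}
    (hp : f p = fun x y => x + y) (hq : f q = fun x y => x * y) (hpq : p ≠ q)
    {ε : ℝ} (hε : 0 < ε) : ∃ n₀ : ℕ, ∀ n ≥ n₀, ∀ a b c d β l : ℂ, IsAlgebraic ℚ a →
      IsAlgebraic ℚ b → IsAlgebraic ℚ c → IsAlgebraic ℚ d → a * d ≠ b * c → l ≠ 0 →
      (Nat.card {t : Expr σ ο // t.leaves = n ∧ IsAlgebraic ℚ (Complex.exp (β + l *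
        ((a * ((t.value f v : ℝ) : ℂ) + b) / (c * ((t.value f v : ℝ) : ℂ) + d))))} : ℝ) ≤
        ε * Nat.card {t : Expr σ ο // t.leaves = n} := by
  classical
  obtain ⟨n₀, hn₀⟩ := main_pow hf hv hp hq hpq hs hε
  refine ⟨n₀ + 1, fun n hn a b c d β l ha hb hc hd hdet hl => ?_⟩
  obtain ⟨m, rfl⟩ : ∃ m, n = m + 1 := ⟨n - 1, by omega⟩
  rw [card_eq m (fun t => IsAlgebraic ℚ (Complex.exp (β + l *
        ((a * ((t.value f v : ℝ) : ℂ) + b) / (c * ((t.value f v : ℝ) : ℂ) + d))))), card_all]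
  exact hn₀ m (by omega) a b c d β l ha hb hc hd hdet hl

theorem partE {ο : Type} [Fintype ο] {f : ο → ℝ → ℝ → ℝ} (hf : Semi f) {p q : ο}
    (hp : f p = fun x y => x + y) (hq : f q = fun x y => x * y) (hpq : p ≠ q) (N : ℕ)
    {ε : ℝ} (hε : 0 < ε) : ∃ n₀ : ℕ, ∀ n ≥ n₀, ∀ κ l : ℂ, κ ≠ 0 → l ≠ 0 →
      ∀ (V : Submodule QB ℂ) [FiniteDimensional QB V], Module.finrank QB V ≤ N →
      (Nat.card {t : Expr σ ο // t.leaves = n ∧
        κ * Complex.exp (l * ((t.value f v : ℝ) : ℂ)) ∈ Lt ⊔ V} : ℝ) ≤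
        ε * Nat.card {t : Expr σ ο // t.leaves = n} := by
  classical
  obtain ⟨n₀, hn₀⟩ := main_exp' hf hv hp hq hpq hs N hε
  refine ⟨n₀ + 1, fun n hn κ l hκ hl V _ hV => ?_⟩
  obtain ⟨m, rfl⟩ : ∃ m, n = m + 1 := ⟨n - 1, by omega⟩
  rw [card_eq m (fun t => κ * Complex.exp (l * ((t.value f v : ℝ) : ℂ)) ∈ Lt ⊔ V),
    card_all]
  exact hn₀ m (by omega) κ l hκ hl V inferInstance hV

/-- real numbers: `C` irrational, `log C` and `A ^ C` transcendental -/
theorem partR {ο : Type} [Fintype ο] {f : ο → ℝ → ℝ → ℝ} (hf : Ari f) {p q : ο}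
    (hp : f p = fun x y => x + y) (hq : f q = fun x y => x * y) (hpq : p ≠ q) {ε : ℝ}
    (hε : 0 < ε) : ∃ n₀ : ℕ, ∀ n ≥ n₀, ∀ A : ℝ, 0 < A → A ≠ 1 →
      (Nat.card {t : Expr σ ο // t.leaves = n ∧ (¬ Irrational (t.value f v) ∨
        IsAlgebraic ℚ (Real.log (t.value f v)) ∨ IsAlgebraic ℚ (A ^ t.value f v))} : ℝ) ≤
        ε * Nat.card {t : Expr σ ο // t.leaves = n} := by
  have hε3 : 0 < ε / 3 := by positivity
  obtain ⟨n₁, hn₁⟩ := partF hv hf hp hq hpq hε3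
  obtain ⟨n₂, hn₂⟩ := partL hv hs hf hp hq hpq hε3
  obtain ⟨n₃, hn₃⟩ := partP hv hs hf hp hq hpq hε3
  refine ⟨max n₁ (max n₂ n₃), fun n hn A hA hA1 => ?_⟩
  have hlog : ((Real.log A : ℝ) : ℂ) ≠ 0 := by
    have := Real.log_ne_zero_of_pos_of_ne_one hA hA1
    exact_mod_cast this
  have e1 := hn₁ n (le_trans (le_max_left _ _) hn) Rat0
    (hs.imp fun s hs => not_mem_Rat0 hs) 1 0 0 1 (by simp)
  have e2 := hn₂ n (le_trans (le_trans (le_max_left _ _) (le_max_right _ _)) hn) 1 0 0 1 (by simp)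
  have e3 := hn₃ n (le_trans (le_trans (le_max_right _ _) (le_max_right _ _)) hn) 1 0 0 1 0
    ((Real.log A : ℝ) : ℂ) isAlgebraic_one isAlgebraic_zero isAlgebraic_zero isAlgebraic_one
    (by simp) hlog
  refine (card_or n _ _).trans ?_
  refine (add_le_add le_rfl (card_or n _ _)).trans ?_
  have f1 := (card_mono n (P := fun t : Expr σ ο => ¬ Irrational (t.value f v)) fun t ht => by
    rw [Irrational, not_not] at ht
    obtain ⟨r, hr⟩ := ht
    rw [one_mul, zero_mul, add_zero, zero_add, div_one, mem_Rat0]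
    exact ⟨r, by rw [← hr]; simp⟩).trans e1
  have f2 := (card_mono n (P := fun t : Expr σ ο => IsAlgebraic ℚ (Real.log (t.value f v)))
    fun t ht => by
    refine ⟨((Real.log (t.value f v) : ℝ) : ℂ), ht.algebraMap (A := ℂ), ?_⟩
    rw [← Complex.ofReal_exp, Real.exp_log (value_pos hf.pos hv t)]
    simp).trans e2
  have f3 := (card_mono n (P := fun t : Expr σ ο => IsAlgebraic ℚ (A ^ t.value f v))
    fun t ht => by
    rw [one_mul, zero_mul, add_zero, zero_add, zero_add, div_one, ← Complex.ofReal_mul,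
      ← Complex.ofReal_exp, ← Real.rpow_def_of_pos hA]
    exact ht.algebraMap (A := ℂ)).trans e3
  linarith

end

end Pool.Agent.E8helper96.EX
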