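import Pool.Agent.E8helper96.EX.Exp

/-!
# One irrational leaf label: almost all expressions
-/

set_option autoImplicit false

namespace Pool.Agent.E8helper96.EX

open Finset Module
open Pool.Agent.H301R2.SSE (QB mem_QB Lt Lt_alg Lt_log)
open Pool.Agent.E8helper37.RX

variable {σ ο : Type}

/-- the predicates: an exponential of a Möbius transform with algebraic coefficients is algebraic -/
def PhiA (P : ℝ → Prop) : Prop :=
  ∃ (a b c d β l : ℂ), IsAlgebraic ℚ a ∧ IsAlgebraic ℚ b ∧ IsAlgebraic ℚ c ∧ IsAlgebraic ℚ d ∧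
    a * d ≠ b * c ∧ l ≠ 0 ∧
    ∀ x : ℝ, 0 < x → P x → IsAlgebraic ℚ (Complex.exp (β + l *
      ((a * (x : ℂ) + b) / (c * (x : ℂ) + d))))

theorem PhiA_add {P : ℝ → Prop} (h : PhiA P) {y : ℝ} (hy : 0 < y) (hya : IsAlgebraic ℚ y) :
    PhiA (fun x => P (x + y)) := by
  obtain ⟨a, b, c, d, β, l, ha, hb, hc, hd, hdet, hl, hP⟩ := h
  have hy' := algC hya
  refine ⟨a, a * y + b, c, c * y + d, β, l, ha, (ha.mul hy').add hb, hc, (hc.mul hy').add hd, ?_,
    hl, fun x hx hPx => ?_⟩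
  · intro h; apply hdet; linear_combination h
  · convert hP (x + y) (by positivity) hPx using 5 <;> (push_cast; ring)

theorem PhiA_mul {P : ℝ → Prop} (h : PhiA P) {y : ℝ} (hy : 0 < y) (hya : IsAlgebraic ℚ y) :
    PhiA (fun x => P (x * y)) := by
  obtain ⟨a, b, c, d, β, l, ha, hb, hc, hd, hdet, hl, hP⟩ := h
  have hya' := algC hya
  have hy' : (y : ℂ) ≠ 0 := by exact_mod_cast hy.ne'
  refine ⟨a * y, b, c * y, d, β, l, ha.mul hya', hb, hc.mul hya', hd, ?_, hl, fun x hx hPx => ?_⟩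
  · intro h; apply hdet
    apply mul_left_cancel₀ hy'
    linear_combination h
  · convert hP (x * y) (by positivity) hPx using 5 <;> (push_cast; ring)

theorem PhiA_div {P : ℝ → Prop} (h : PhiA P) {y : ℝ} (hy : 0 < y) (hya : IsAlgebraic ℚ y) :
    PhiA (fun x => P (x / y)) := by
  have h1 := PhiA_mul h (inv_pos.2 hy) hya.inv
  simpa only [div_eq_mul_inv] using h1

theorem PhiA_div' {P : ℝ → Prop} (h : PhiA P) {y : ℝ} (hy : 0 < y) (hya : IsAlgebraic ℚ y) :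
    PhiA (fun x => P (y / x)) := by
  obtain ⟨a, b, c, d, β, l, ha, hb, hc, hd, hdet, hl, hP⟩ := h
  have hya' := algC hya
  have hy' : (y : ℂ) ≠ 0 := by exact_mod_cast hy.ne'
  refine ⟨b, a * y, d, c * y, β, l, hb, ha.mul hya', hd, hc.mul hya', ?_, hl, fun x hx hPx => ?_⟩
  · intro h; apply hdet
    apply mul_left_cancel₀ hy'
    linear_combination -h
  · have hx' : (x : ℂ) ≠ 0 := by exact_mod_cast hx.ne'
    convert hP (y / x) (by positivity) hPx using 4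
    have e1 : a * ((y / x : ℝ) : ℂ) + b = (b * x + a * y) / x := by
      push_cast; field_simp; ring
    have e2 : c * ((y / x : ℝ) : ℂ) + d = (d * x + c * y) / x := by
      push_cast; field_simp; ring
    rw [e1, e2, div_div_div_cancel_right₀ hx']

theorem value_alg {f : ο → ℝ → ℝ → ℝ} (hf : Ari f) {v : σ → ℝ} (hv : ∀ s, IsAlgebraic ℚ (v s))
    (t : Expr σ ο) : IsAlgebraic ℚ (t.value f v) := by
  induction t with
  | leaf s => exact hv s
  | node o l r hl hr =>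
    simp only [Expr.value]
    rcases hf o with h | h | h
    · rw [h]; exact hl.add hr
    · rw [h]; exact hl.mul hr
    · rw [h]; simp only [div_eq_mul_inv]; exact hl.mul hr.inv

theorem PhiA_closed {f : ο → ℝ → ℝ → ℝ} (hf : Ari f) {v : σ → ℝ} (hv : ∀ s, 0 < v s)
    (hva : ∀ s, IsAlgebraic ℚ (v s)) : ∀ P, PhiA P → ∀ (o : ο) (t : Expr σ ο),
      PhiA (fun x => P (f o x (t.value f v))) ∧ PhiA (fun x => P (f o (t.value f v) x)) := by
  intro P hP o t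
  have hy : 0 < t.value f v := value_pos hf.pos hv t
  have hya := value_alg hf hva t
  rcases hf o with h | h | h
  · rw [h]
    refine ⟨PhiA_add hP hy hya, ?_⟩
    have := PhiA_add hP hy hya
    simpa only [add_comm] using this
  · rw [h]
    refine ⟨PhiA_mul hP hy hya, ?_⟩
    have := PhiA_mul hP hy hya
    simpa only [mul_comm] using this
  · rw [h]
    exact ⟨PhiA_div hP hy hya, PhiA_div' hP hy hya⟩

theorem exists_h' (N : ℕ) {ε : ℝ} (hε : 0 < ε) : ∃ h : ℕ,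
    4 / ((h : ℝ) + 1) ≤ ε ∧ (N + 2 * Nat.sqrt h + 2 : ℝ) / ((h : ℝ) + 1) ≤ ε := by
  obtain ⟨h, h1, -, h2⟩ := exists_h N hε
  refine ⟨h, le_trans ?_ h1, h2⟩
  apply div_le_div_of_nonneg_right _ (by positivity)
  have : (0 : ℝ) ≤ N := by positivity
  linarith

section

variable [Fintype σ] [Fintype ο] [DecidableEq σ] [DecidableEq ο]

/-- (A) -/
theorem main_field {f : ο → ℝ → ℝ → ℝ} (hf : Ari f) {v : σ → ℝ} (hv : ∀ s, 0 < v s)
    {p q : ο} (hp : f p = fun x y => x + y) (hq : f q = fun x y => x * y) (hpq : p ≠ q)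
    {ε : ℝ} (hε : 0 < ε) :
    ∃ n₀, ∀ n ≥ n₀, ∀ K : Subfield ℂ, (∃ s, ((v s : ℝ) : ℂ) ∉ K) → ∀ a b c d : ℂ, a * d ≠ b * c →
      ∑ t ∈ ex σ ο n, ind ((a * ((t.value f v : ℝ) : ℂ) + b) /
        (c * ((t.value f v : ℝ) : ℂ) + d) ∈ K) ≤ ε * Tn σ ο n := by
  obtain ⟨h, hh1, -⟩ := exists_h' 0 (half_pos hε)
  have hs : ∀ s : σ, ∃ n₀, ∀ n ≥ n₀, ∀ K : Subfield ℂ, ((v s : ℝ) : ℂ) ∉ K → ∀ a b c d : ℂ,
      a * d ≠ b * c → ∑ t ∈ ex σ ο n, ind ((a * ((t.value f v : ℝ) : ℂ) + b) /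
        (c * ((t.value f v : ℝ) : ℂ) + d) ∈ K) ≤ ε * Tn σ ο n := by
    intro s
    let R : (ℂ → Prop) → Prop := fun Q => ∃ K : Subfield ℂ, ((v s : ℝ) : ℂ) ∉ K ∧ ∀ z, Q z → z ∈ K
    obtain ⟨n₀, hn₀⟩ := assemble hp hq hpq s (PhiM R) (PhiM_closed hf hv R) 2 h (by omega)
      (4 / ((h : ℝ) + 1)) (by positivity) (by
        rintro P ⟨a, b, c, d, Q, hdet, ⟨K, hK, hQK⟩, hP⟩
        refine le_trans (Finset.sum_le_sum fun i _ => ind_mono fun hi => ?_)
          (base_field hK hdet le_rfl)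
        exact hQK _ (hP _ (pt_pos (hv s) _ _ i) hi)) (half_pos hε)
    refine ⟨n₀, fun n hn K hK a b c d hdet => ?_⟩
    refine (hn₀ n hn (fun x => (a * ((x : ℝ) : ℂ) + b) / (c * ((x : ℝ) : ℂ) + d) ∈ K)
      ⟨a, b, c, d, fun z => z ∈ K, hdet, ⟨K, hK, fun _ h => h⟩, fun _ _ h => h⟩).trans ?_
    apply mul_le_mul_of_nonneg_right _ (Tn_nonneg n)
    linarith
  choose n₀ hn₀ using hs
  refine ⟨Finset.univ.sup n₀, fun n hn K hK => ?_⟩
  obtain ⟨s, hs⟩ := hK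
  exact hn₀ s n (le_trans (Finset.le_sup (Finset.mem_univ s)) hn) K hs

/-- (B) -/
theorem main_log' {f : ο → ℝ → ℝ → ℝ} (hf : Ari f) {v : σ → ℝ} (hv : ∀ s, 0 < v s)
    {p q : ο} (hp : f p = fun x y => x + y) (hq : f q = fun x y => x * y) (hpq : p ≠ q)
    {s : σ} (hs : v s ≠ 1) {ε : ℝ} (hε : 0 < ε) :
    ∃ n₀, ∀ n ≥ n₀, ∀ a b c d : ℂ, a * d ≠ b * c →
      ∑ t ∈ ex σ ο n, ind (∃ α : ℂ, IsAlgebraic ℚ α ∧ (a * ((t.value f v : ℝ) : ℂ) + b) /
        (c * ((t.value f v : ℝ) : ℂ) + d) = Complex.exp α) ≤ ε * Tn σ ο n := by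
  obtain ⟨h, -, hh1, -⟩ := exists_h 0 (half_pos hε)
  have hμ : ((v s * (v s - 1) : ℝ) : ℂ) ≠ 0 := by
    exact_mod_cast mul_ne_zero (hv s).ne' (sub_ne_zero.2 hs)
  let R : (ℂ → Prop) → Prop := fun Q => ∀ z, Q z → ∃ α : ℂ, IsAlgebraic ℚ α ∧ z = Complex.exp α
  obtain ⟨n₀, hn₀⟩ := assemble hp hq hpq s (PhiM R) (PhiM_closed hf hv R) 1 h le_rfl
    (3 / ((h : ℝ) + 1)) (by positivity) (by
      rintro P ⟨a, b, c, d, Q, hdet, hQ, hP⟩
      refine le_trans (Finset.sum_le_sum fun i _ => ind_mono fun hi => ?_)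
        (base_log' hμ hdet le_rfl)
      exact hQ _ (hP _ (pt_pos (hv s) _ _ i) hi)) (half_pos hε)
  refine ⟨n₀, fun n hn a b c d hdet => ?_⟩
  refine (hn₀ n hn (fun x => ∃ α : ℂ, IsAlgebraic ℚ α ∧
    (a * ((x : ℝ) : ℂ) + b) / (c * ((x : ℝ) : ℂ) + d) = Complex.exp α)
    ⟨a, b, c, d, fun z => ∃ α : ℂ, IsAlgebraic ℚ α ∧ z = Complex.exp α, hdet, fun _ h => h,
      fun _ _ h => h⟩).trans ?_
  apply mul_le_mul_of_nonneg_right _ (Tn_nonneg n)
  linarith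

/-- (C) -/
theorem main_pow {f : ο → ℝ → ℝ → ℝ} (hf : Ari f) {v : σ → ℝ} (hv : ∀ s, 0 < v s)
    {p q : ο} (hp : f p = fun x y => x + y) (hq : f q = fun x y => x * y) (hpq : p ≠ q)
    (hs : ∃ s, Irrational (v s)) {ε : ℝ} (hε : 0 < ε) :
    ∃ n₀, ∀ n ≥ n₀, ∀ a b c d β l : ℂ, IsAlgebraic ℚ a → IsAlgebraic ℚ b → IsAlgebraic ℚ c →
      IsAlgebraic ℚ d → a * d ≠ b * c → l ≠ 0 →
      ∑ t ∈ ex σ ο n, ind (IsAlgebraic ℚ (Complex.exp (β + l *
        ((a * ((t.value f v : ℝ) : ℂ) + b) / (c * ((t.value f v : ℝ) : ℂ) + d))))) ≤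
        ε * Tn σ ο n := by
  by_cases hall : ∀ s, IsAlgebraic ℚ (v s)
  · obtain ⟨s, hs⟩ := hs
    obtain ⟨h, hh1, -⟩ := exists_h' 0 (half_pos hε)
    obtain ⟨n₀, hn₀⟩ := assemble hp hq hpq s PhiA (PhiA_closed hf hv hall) 2 h (by omega)
      (4 / ((h : ℝ) + 1)) (by positivity) (by
        rintro P ⟨a, b, c, d, β, l, ha, hb, hc, hd, hdet, hl, hP⟩
        refine le_trans (Finset.sum_le_sum fun i _ => ind_mono fun hi => ?_)
          (base_pow hs (hall s) (β := β) ha hb hc hd hdet hl le_rfl)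
        exact hP _ (pt_pos (hv s) _ _ i) hi) (half_pos hε)
    refine ⟨n₀, fun n hn a b c d β l ha hb hc hd hdet hl => ?_⟩
    refine (hn₀ n hn (fun x => IsAlgebraic ℚ (Complex.exp (β + l *
      ((a * (x : ℂ) + b) / (c * (x : ℂ) + d)))))
      ⟨a, b, c, d, β, l, ha, hb, hc, hd, hdet, hl, fun _ _ h => h⟩).trans ?_
    apply mul_le_mul_of_nonneg_right _ (Tn_nonneg n)
    linarith
  · push Not at hall
    obtain ⟨s, hs'⟩ := hall
    obtain ⟨s₀, hs₀⟩ := hs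
    obtain ⟨n₀, hn₀⟩ := main_mob hf hv hp hq hpq (s := s) hs' 0 (half_pos hε)
    obtain ⟨n₁, hn₁⟩ := main_field hf hv hp hq hpq (half_pos hε)
    refine ⟨max n₀ n₁, fun n hn a b c d β l _ _ _ _ hdet hl => ?_⟩
    have h1 := hn₀ n (le_trans (le_max_left _ _) hn) (β * c + l * a) (β * d + l * b) c d (by
      intro h
      apply hdet
      apply mul_left_cancel₀ hl
      linear_combination h) ⊥ inferInstance (by simp)
    have h1' := hn₁ n (le_trans (le_max_right _ _) hn) Rat0 ⟨s₀, not_mem_Rat0 hs₀⟩ 1 (d / c) 0 1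
      (by simp)
    have h4 : ∀ t : Expr σ ο, ind (IsAlgebraic ℚ (Complex.exp (β + l *
        ((a * ((t.value f v : ℝ) : ℂ) + b) / (c * ((t.value f v : ℝ) : ℂ) + d))))) ≤
        ind (((β * c + l * a) * ((t.value f v : ℝ) : ℂ) + (β * d + l * b)) /
          (c * ((t.value f v : ℝ) : ℂ) + d) ∈ Lt ⊔ (⊥ : Submodule QB ℂ)) +
        ind ((1 * ((t.value f v : ℝ) : ℂ) + d / c) / (0 * ((t.value f v : ℝ) : ℂ) + 1) ∈ Rat0) := by
      intro t
      by_cases h2 : c * ((t.value f v : ℝ) : ℂ) + d = 0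
      · have hc : c ≠ 0 := by
          rintro rfl
          rw [zero_mul, zero_add] at h2
          apply hdet
          rw [h2]; ring
        have h5 : (1 * ((t.value f v : ℝ) : ℂ) + d / c) / (0 * ((t.value f v : ℝ) : ℂ) + 1) ∈ Rat0 := by
          have : (1 * ((t.value f v : ℝ) : ℂ) + d / c) / (0 * ((t.value f v : ℝ) : ℂ) + 1) = 0 := by
            field_simp
            linear_combination h2
          rw [this]
          exact Rat0.zero_mem
        rw [ind_pos h5]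
        have := ind_le_one (IsAlgebraic ℚ (Complex.exp (β + l *
          ((a * ((t.value f v : ℝ) : ℂ) + b) / (c * ((t.value f v : ℝ) : ℂ) + d)))))
        have := ind_nonneg (((β * c + l * a) * ((t.value f v : ℝ) : ℂ) + (β * d + l * b)) /
          (c * ((t.value f v : ℝ) : ℂ) + d) ∈ Lt ⊔ (⊥ : Submodule QB ℂ))
        linarith
      · have h3 : ((β * c + l * a) * ((t.value f v : ℝ) : ℂ) + (β * d + l * b)) /
            (c * ((t.value f v : ℝ) : ℂ) + d) = β + l *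
          ((a * ((t.value f v : ℝ) : ℂ) + b) / (c * ((t.value f v : ℝ) : ℂ) + d)) := by
          field_simp
          ring
        rw [h3]
        have := ind_nonneg ((1 * ((t.value f v : ℝ) : ℂ) + d / c) /
          (0 * ((t.value f v : ℝ) : ℂ) + 1) ∈ Rat0)
        have h6 := ind_mono (p := IsAlgebraic ℚ (Complex.exp (β + l *
          ((a * ((t.value f v : ℝ) : ℂ) + b) / (c * ((t.value f v : ℝ) : ℂ) + d)))))
          (q := β + l * ((a * ((t.value f v : ℝ) : ℂ) + b) / (c * ((t.value f v : ℝ) : ℂ) + d)) ∈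
            Lt ⊔ (⊥ : Submodule QB ℂ))
          fun ht => (le_sup_left : Lt ≤ Lt ⊔ ⊥) (Lt_log ht)
        linarith
    refine (Finset.sum_le_sum fun t _ => h4 t).trans ?_
    rw [Finset.sum_add_distrib]
    linarith

/-- (D) -/
theorem main_exp' {f : ο → ℝ → ℝ → ℝ} (hf : Semi f) {v : σ → ℝ} (hv : ∀ s, 0 < v s)
    {p q : ο} (hp : f p = fun x y => x + y) (hq : f q = fun x y => x * y) (hpq : p ≠ q)
    (hs : ∃ s, Irrational (v s)) (N : ℕ) {ε : ℝ} (hε : 0 < ε) :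
    ∃ n₀, ∀ n ≥ n₀, ∀ a l : ℂ, a ≠ 0 → l ≠ 0 → ∀ V : Submodule QB ℂ,
      FiniteDimensional QB V → finrank QB V ≤ N →
      ∑ t ∈ ex σ ο n, ind (a * Complex.exp (l * ((t.value f v : ℝ) : ℂ)) ∈ Lt ⊔ V) ≤
        ε * Tn σ ο n := by
  obtain ⟨s, hs⟩ := hs
  by_cases hsa : IsAlgebraic ℚ (v s)
  · obtain ⟨h, -, hh1⟩ := exists_h' N (half_pos hε)
    let R : (ℂ → Prop) → Prop := fun Q => ∃ V : Submodule QB ℂ, FiniteDimensional QB V ∧
      finrank QB V ≤ N ∧ ∀ z, Q z → z ∈ Lt ⊔ V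
    obtain ⟨n₀, hn₀⟩ := assemble hp hq hpq s (PhiE R) (PhiE_closed hf hv R) 2 h (by omega)
      ((N + 2 * Nat.sqrt h + 2 : ℝ) / ((h : ℝ) + 1)) (by positivity) (by
        rintro P ⟨a, l, Q, ha, hl, ⟨V, hV, hVN, hQV⟩, hP⟩
        refine le_trans (Finset.sum_le_sum fun i _ => ind_mono fun hi => ?_)
          (base_exp' hs hsa ha hl V hVN le_rfl)
        exact hQV _ (hP _ (pt_pos (hv s) _ _ i) hi)) (half_pos hε)
    refine ⟨n₀, fun n hn a l ha hl V hV hVN => ?_⟩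
    refine (hn₀ n hn (fun x => a * Complex.exp (l * ((x : ℝ) : ℂ)) ∈ Lt ⊔ V)
      ⟨a, l, fun z => z ∈ Lt ⊔ V, ha, hl, ⟨V, hV, hVN, fun _ h => h⟩, fun _ _ h => h⟩).trans ?_
    apply mul_le_mul_of_nonneg_right _ (Tn_nonneg n)
    linarith
  · exact main_exp hf hv hp hq hpq (s := s) hsa N hε

end

end Pool.Agent.E8helper96.EX
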